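import Mathlib
import Pool.Agent.Helper910.TriDefs
import Pool.Agent.Helper910.TgDefs
import Pool.Agent.Helper910.TgJ
import Pool.Agent.Helper910.TgG2

/-!
# MP_c48673_co: `f(n,2b-1,bm+1) ≤ (m+1)n + 2bm`, and the matching lower bound for covers with at most `2b` parallel classes
-/

namespace Pool.Agent.Results.MP_c48673_co.FewDirections

open Pool.Agent.Helper910.Tri

open Classical in
/-- For all `m ≥ 0`, `b ≥ 1`, `n ≥ 1` there is a `(bm+1)`-cover of `T_{2b-1}(n)` by at most `(m+1)n + 2bm` facet-parallel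
hyperplanes; and for every `(bm+1)`-cover `M` and any `2b` vectors `A`, if `r` members of `M` are not of the form
`{x : A o · x = c}` then `(m+1) n ≤ |M| + m r`. -/
theorem result (b m n : ℕ) (hb : 1 ≤ b) (hn : 1 ≤ n) :
    (∃ M : Multiset (Set (Fin (2 * b - 1) → ℝ)), IsCover (2 * b - 1) n (b * m + 1) M ∧ (∀ H ∈ M, FacetParallel H) ∧
      Multiset.card M ≤ (m + 1) * n + 2 * b * m) ∧
    ∀ (M : Multiset (Set (Fin (2 * b - 1) → ℝ))) (A : Fin (2 * b) → Fin (2 * b - 1) → ℝ),
      IsCover (2 * b - 1) n (b * m + 1) M →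
      (m + 1) * n ≤ Multiset.card M + m * Multiset.card (M.filter (fun H => ¬ ParallelTo A H)) :=
  ⟨upperB' hb (by omega) hn, fun _ A hM => lowerG hb (Fintype.card_fin _) A hM⟩

end Pool.Agent.Results.MP_c48673_co.FewDirections
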