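import Mathlib
import Pool.Agent.Helper910.TriDefs
import Pool.Agent.Helper910.Tri1
import Pool.Agent.Helper910.Tri2
import Pool.Agent.Helper910.Tri3
import Pool.Agent.Helper910.TgG2
import Pool.Agent.Helper910.Slope3

/-!
# MP_c48673_co: the range of the slopes of `f(n,2b-1,bm+1)`
-/

namespace Pool.Agent.Results.MP_c48673_co.SlopeRange

open Pool.Agent.Helper910.Tri

theorem slope_upper {d b m : ℕ} (hb : 1 ≤ b) (hd : d + 1 = 2 * b) (C : ℝ) (hC : IsSlope d (b * m + 1) C) :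
    C ≤ m + 1 := by
  obtain ⟨B, hB⟩ := hC
  have key : C - (m + 1) ≤ 0 := by
    apply le_of_forall_mul _ (B + 2 * b * m) 1 one_pos
    intro n hn
    obtain ⟨M, hM, _, hc⟩ := upperB' (d := d) (b := b) (m := m) (n := n) hb hd hn
    have h1 : f n d (b * m + 1) ≤ Multiset.card M := Nat.sInf_le ⟨M, hM, rfl⟩
    have h2 : (f n d (b * m + 1) : ℝ) ≤ (m + 1) * n + 2 * b * m := by
      have := h1.trans hc
      exact_mod_cast this
    have h3 := (abs_le.1 (hB n hn)).1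
    have h4 : (C - (m + 1)) * (1 * (n : ℝ)) = C * n - (m + 1) * n := by ring
    rw [h4]
    linarith
  linarith

/-- If `f(n,2b-1,bm+1) = C n + O(1)` then `2(bm+1)/(2b-1+H_{2b-1}) ≤ C ≤ m+1`, and for `b = 2` even `m + 1/2 ≤ C ≤ m+1`. -/
theorem result (b m : ℕ) (hb : 1 ≤ b) (C : ℝ) (hC : IsSlope (2 * b - 1) (b * m + 1) C) :
    C ≤ m + 1 ∧ 2 * ((b : ℝ) * m + 1) / (((2 * b - 1 : ℕ) : ℝ) + (harmonic (2 * b - 1) : ℝ)) ≤ C ∧
    (b = 2 → (m : ℝ) + 1 / 2 ≤ C) := by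
  refine ⟨slope_upper hb (by omega) C hC, ?_, ?_⟩
  · have h1 := (slope_bounds (d := 2 * b - 1) (by omega) _ C hC).1
    have h2 := ell_ge (2 * b - 1) (by omega)
    have h3 : (0 : ℝ) ≤ ((b * m + 1 : ℕ) : ℝ) := Nat.cast_nonneg _
    have h4 := mul_le_mul_of_nonneg_left h2 h3
    refine le_trans (le_of_eq ?_) (h4.trans h1)
    push_cast
    ring
  · rintro rfl
    have h1 := Pool.Agent.Helper910.Slope3.slope_lower (2 * m + 1) C hC
    push_cast at h1
    linarith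

end Pool.Agent.Results.MP_c48673_co.SlopeRange
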